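import Mathlib
import Pool.Agent.H91.RD.Targets3

/-!
# MP_609556_an: fronts to `0` have `4 f'(0) ≤ c²` (`T_F0P`)
-/

open MeasureTheory Set Filter Topology Metric

namespace Pool.Agent.H19.RD

open Pool.Agent.H91.RD

theorem wave_strictAnti {f φ : ℝ → ℝ} {a b c : ℝ} (h : Wave f a b c φ) : StrictAnti φ :=
  strictAnti_of_deriv_neg h.dec

theorem wave_pos {f φ : ℝ → ℝ} {a b c : ℝ} (h : Wave f a b c φ) (z : ℝ) : a < φ z := by
  have hanti := wave_strictAnti h
  have h1 : φ (z + 1) < φ z := hanti (by linarith)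
  have h2 : a ≤ φ (z + 1) := by
    apply le_of_tendsto h.right
    filter_upwards [eventually_ge_atTop (z + 1)] with y hy
    exact hanti.antitone hy
  linarith

theorem wave_lt {f φ : ℝ → ℝ} {a b c : ℝ} (h : Wave f a b c φ) (z : ℝ) : φ z < b := by
  have hanti := wave_strictAnti h
  have h1 : φ z < φ (z - 1) := hanti (by linarith)
  have h2 : φ (z - 1) ≤ b := by
    apply ge_of_tendsto h.left
    filter_upwards [eventually_le_atBot (z - 1)] with y hy
    exact hanti.antitone hy
  linarith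

/-- F0P -/
theorem f0p : T_F0P := by
  intro f φ b c hf hb0 hb1 h
  by_contra hcon
  push Not at hcon
  set m := derivWithin f (Icc 0 1) 0 with hm
  set ε := m - c ^ 2 / 4 with hε
  have hε0 : 0 < ε := by rw [hε]; linarith
  have hpos := wave_pos h
  have hlt : ∀ z, φ z < 1 := fun z => (wave_lt h z).trans_le hb1
  have hd1 : ∀ z, HasDerivAt φ (deriv φ z) z := fun z =>
    (h.c2.differentiable (by norm_num) z).hasDerivAt
  have hc1 : ContDiff ℝ 1 (deriv φ) := by
    have h1 := h.c2
    rw [show (2 : WithTop ℕ∞) = 1 + 1 from rfl, contDiff_succ_iff_deriv] at h1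
    exact h1.2.2
  have hd2 : ∀ z, HasDerivAt (deriv φ) (deriv (deriv φ) z) z := fun z =>
    (hc1.differentiable (by norm_num) z).hasDerivAt
  set q : ℝ → ℝ := fun z => -(deriv φ z) / φ z with hq
  have hq' : ∀ z, HasDerivAt q (q z ^ 2 - c * q z + f (φ z) / φ z) z := by
    intro z
    have h1 := ((hd2 z).neg).div (hd1 z) (hpos z).ne'
    have e1 : (-(deriv (deriv φ) z) * φ z - -(deriv φ z) * deriv φ z) / φ z ^ 2
        = q z ^ 2 - c * q z + f (φ z) / φ z := by
      have h2 : deriv (deriv φ) z = -(c * deriv φ z) - f (φ z) := by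
        have := h.eqn z; linarith
      have h3 := (hpos z).ne'
      rw [h2, hq]
      field_simp
      ring
    rw [← e1]
    exact h1
  -- `f` near `0`
  have hdf : HasDerivWithinAt f m (Icc 0 1) 0 :=
    ((hf.smooth.differentiableOn (by norm_num)) 0 (by simp)).hasDerivWithinAt
  have hfs : ∀ᶠ s in 𝓝[Icc 0 1] (0 : ℝ), (m - ε / 2) * s ≤ f s := by
    have h1 := hdf.isLittleO
    have h2 := h1.def (show 0 < ε / 2 by positivity)
    filter_upwards [h2, self_mem_nhdsWithin] with s hs hsI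
    rw [hf.zero] at hs
    simp only [sub_zero, smul_eq_mul, Real.norm_eq_abs] at hs
    rw [abs_of_nonneg hsI.1] at hs
    have h3 := (abs_le.1 hs).1
    nlinarith
  have hφz : Tendsto φ atTop (𝓝[Icc 0 1] 0) := by
    rw [tendsto_nhdsWithin_iff]
    exact ⟨h.right, Eventually.of_forall (fun z => ⟨(hpos z).le, (hlt z).le⟩)⟩
  obtain ⟨z1, hz1⟩ := eventually_atTop.1 (hφz.eventually hfs)
  have hfφ : ∀ z ≥ z1, c ^ 2 / 4 + ε / 2 ≤ f (φ z) / φ z := by
    intro z hz
    rw [le_div_iff₀ (hpos z)]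
    have h1 := hz1 z hz
    have e : m - ε / 2 = c ^ 2 / 4 + ε / 2 := by rw [hε]; ring
    rwa [e] at h1
  set δ := √(ε / 2) with hδ
  have hδ0 : 0 < δ := Real.sqrt_pos.2 (by positivity)
  have hδ2 : δ ^ 2 = ε / 2 := Real.sq_sqrt (by positivity)
  set H : ℝ → ℝ := fun z => Real.arctan ((q z - c / 2) / δ) - δ * z with hH
  have hH' : ∀ z, HasDerivAt H (1 / (1 + ((q z - c / 2) / δ) ^ 2) *
      ((q z ^ 2 - c * q z + f (φ z) / φ z) / δ) - δ * 1) z := by
    intro z
    have h1 : HasDerivAt (fun z => (q z - c / 2) / δ)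
        ((q z ^ 2 - c * q z + f (φ z) / φ z) / δ) z := ((hq' z).sub_const _).div_const _
    exact h1.arctan.sub ((hasDerivAt_id z).const_mul δ)
  have hmono : MonotoneOn H (Ici z1) := by
    apply monotoneOn_of_deriv_nonneg (convex_Ici z1)
    · exact fun z _ => (hH' z).continuousAt.continuousWithinAt
    · exact fun z _ => (hH' z).differentiableAt.differentiableWithinAt
    · intro z hz
      rw [interior_Ici] at hz
      rw [(hH' z).deriv]
      have h1 := hfφ z hz.le
      set r := q z - c / 2 with hr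
      have e1 : q z ^ 2 - c * q z + f (φ z) / φ z = r ^ 2 + (f (φ z) / φ z - c ^ 2 / 4) := by
        rw [hr]; ring
      rw [e1]
      have h2 : δ ^ 2 ≤ f (φ z) / φ z - c ^ 2 / 4 := by rw [hδ2]; linarith
      have h3 : 0 < 1 + (r / δ) ^ 2 := by positivity
      have e2 : 1 / (1 + (r / δ) ^ 2) * ((r ^ 2 + (f (φ z) / φ z - c ^ 2 / 4)) / δ)
          = (r ^ 2 + (f (φ z) / φ z - c ^ 2 / 4)) / (r ^ 2 + δ ^ 2) * δ := by
        have h4 : r ^ 2 + δ ^ 2 ≠ 0 := by positivity
        have h5 : 1 + (r / δ) ^ 2 = (r ^ 2 + δ ^ 2) / δ ^ 2 := by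
          field_simp
          ring
        rw [h5]
        field_simp
      rw [e2]
      have h6 : 1 ≤ (r ^ 2 + (f (φ z) / φ z - c ^ 2 / 4)) / (r ^ 2 + δ ^ 2) := by
        rw [one_le_div (by positivity)]
        linarith
      nlinarith
  have hz2 : z1 ≤ z1 + (Real.pi + 1) / δ := by
    have : 0 < (Real.pi + 1) / δ := by
      have := Real.pi_pos
      positivity
    linarith
  have h6 := hmono self_mem_Ici hz2 hz2
  simp only [hH] at h6
  have h7 := Real.arctan_lt_pi_div_two ((q (z1 + (Real.pi + 1) / δ) - c / 2) / δ)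
  have h8 := Real.neg_pi_div_two_lt_arctan ((q z1 - c / 2) / δ)
  have h9 : δ * (z1 + (Real.pi + 1) / δ) = δ * z1 + (Real.pi + 1) := by
    field_simp
  rw [h9] at h6
  linarith

end Pool.Agent.H19.RD
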