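import Mathlib
import Pool.Agent.H91.RD.Targets3
import Pool.Agent.H19.RD.F0P

/-!
# MP_609556_an: fast decay of the leading front (`T_FST`)
-/

open MeasureTheory Set Filter Topology Metric

namespace Pool.Agent.H19.RD

open Pool.Agent.H91.RD

/-- lower barrier for a positive solution of the phase plane equation -/
theorem barrier {f y : ℝ → ℝ} {b c k η r : ℝ} (hb0 : 0 < b) (hy : IsYb f b c y)
    (hpos : ∀ τ ∈ Ioc 0 b, 0 < y τ) (hc : 0 < c) (hr0 : 0 < r) (hr : r * (c - r) = k)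
    (hηb : η < b) (hf : ∀ s ∈ Icc 0 η, f s ≤ k * s) :
    ∀ v ∈ Ioc 0 η, (r * v) ^ 2 ≤ 2 * y (b - v) := by
  intro v hv
  set G : ℝ → ℝ := fun s => 2 * y (b - s) - (r * s) ^ 2 with hG
  have hη0 : 0 < η := hv.1.trans_le hv.2
  have hcont : ContinuousOn G (Icc 0 η) := by
    have h1 : ContinuousOn (fun s => y (b - s)) (Icc 0 η) := by
      refine hy.2.1.comp (by fun_prop) ?_
      intro s hs
      exact ⟨by linarith [hs.2], by linarith [hs.1]⟩
    exact (h1.const_mul 2).sub (by fun_prop)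
  have hG0 : 0 < G 0 := by
    simp only [hG]
    have := hpos b ⟨hb0, le_rfl⟩
    simp
    exact this
  have hG' : ∀ s ∈ Ioc 0 η, HasDerivAt G (2 * (c * √(2 * y (b - s)) - f s) - 2 * r ^ 2 * s) s := by
    intro s hs
    have h1 := hy.2.2 (b - s) ⟨by linarith [hs.2], by linarith [hs.1]⟩
    have hp := hpos (b - s) ⟨by linarith [hs.2], by linarith [hs.1]⟩
    rw [max_eq_left hp.le] at h1
    have h2 : HasDerivAt (fun s : ℝ => b - s) (-1) s := by
      simpa using (hasDerivAt_id s).const_sub b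
    have h3 := (h1.comp s h2).const_mul 2
    have h4 : HasDerivAt (fun s : ℝ => (r * s) ^ 2) (2 * r ^ 2 * s) s := by
      have h5 := ((hasDerivAt_id s).const_mul r).pow 2
      refine h5.congr_deriv ?_
      simp
      ring
    have h5 := h3.sub h4
    refine h5.congr_deriv ?_
    have e : b - (b - s) = s := by ring
    rw [e]
    ring
  -- a starting point
  obtain ⟨a, ha0, hav, hGa⟩ : ∃ a, 0 < a ∧ a < v ∧ 0 < G a := by
    have h1 : ContinuousWithinAt G (Icc 0 η) 0 := hcont 0 ⟨le_rfl, hη0.le⟩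
    have h2 : ∀ᶠ s in 𝓝[Icc 0 η] (0 : ℝ), 0 < G s := h1.eventually (lt_mem_nhds hG0)
    have h3 : 𝓝[Ioo 0 v] (0 : ℝ) ≤ 𝓝[Icc 0 η] 0 :=
      nhdsWithin_mono _ fun s hs => ⟨hs.1.le, hs.2.le.trans hv.2⟩
    have h4 : ∀ᶠ s in 𝓝[Ioo 0 v] (0 : ℝ), 0 < G s := h3 h2
    have h5 : (𝓝[Ioo 0 v] (0 : ℝ)).NeBot := by
      rw [← mem_closure_iff_nhdsWithin_neBot, closure_Ioo hv.1.ne]
      exact ⟨le_rfl, hv.1.le⟩
    obtain ⟨s, hs, hs'⟩ := (h4.and self_mem_nhdsWithin).exists
    exact ⟨s, hs'.1, hs'.2, hs⟩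
  have hkey := image_le_of_deriv_right_lt_deriv_boundary (f := fun s => -(G s))
    (f' := fun s => -(2 * (c * √(2 * y (b - s)) - f s) - 2 * r ^ 2 * s)) (a := a) (b := v)
    (B := fun _ => -(G a / 2)) (B' := fun _ => 0)
    ((hcont.mono fun s hs => ⟨ha0.le.trans hs.1, hs.2.trans hv.2⟩).neg)
    (fun s hs => (hG' s ⟨ha0.trans_le hs.1, hs.2.le.trans hv.2⟩).neg.hasDerivWithinAt)
    (by
      show -(G a) ≤ -(G a / 2)
      linarith)
    (fun s => hasDerivAt_const s _) (by
      intro s hs heq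
      have h1 : G s = G a / 2 := by linarith
      have hs0 : 0 < s := ha0.trans_le hs.1
      have h2 := hf s ⟨hs0.le, hs.2.le.trans hv.2⟩
      have hgs : 0 < 2 * y (b - s) - (r * s) ^ 2 := by
        have : 0 < G s := by rw [h1]; linarith
        exact this
      have h3 : r * s < √(2 * y (b - s)) := by
        rw [Real.lt_sqrt (by positivity)]
        linarith
      have h4 : c * (r * s) < c * √(2 * y (b - s)) := mul_lt_mul_of_pos_left h3 hc
      have h5 : k * s = c * (r * s) - r ^ 2 * s := by rw [← hr]; ring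
      linarith)
  have h6 := hkey (right_mem_Icc.2 hav.le)
  have h7 : -(G v) ≤ -(G a / 2) := h6
  have h8 : 0 < G v := by linarith
  have h9 : 0 < 2 * y (b - v) - (r * v) ^ 2 := h8
  linarith

/-- FST -/
theorem fst (hyex : T_YEX) (hycmp : T_YCMP) : T_FST := by
  intro f K b c k η0 y φ hf hb0 hb1 hfb hE hk0 hkc hη0 hfk hW hφ
  set η := min η0 (b / 2) with hη
  have hηpos : 0 < η := lt_min hη0 (by linarith)
  have hηb : η < b := (min_le_right _ _).trans_lt (by linarith)
  have hfη : ∀ s ∈ Icc 0 η, f s ≤ k * s := fun s hs =>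
    hfk s ⟨hs.1, hs.2.trans (min_le_left _ _)⟩
  set R : ℝ → ℝ := fun c => (c + √(c ^ 2 - 4 * k)) / 2 with hR
  have hc0 := hE.cpos
  have hRcont : Continuous R := by fun_prop
  have hRkey : ∀ c', 0 < c' → 4 * k < c' ^ 2 → 0 < R c' ∧ R c' * (c' - R c') = k ∧ c' / 2 < R c' := by
    intro c' h1 h2
    have h3 : 0 < √(c' ^ 2 - 4 * k) := Real.sqrt_pos.2 (by linarith)
    have h4 : √(c' ^ 2 - 4 * k) ^ 2 = c' ^ 2 - 4 * k := Real.sq_sqrt (by linarith)
    refine ⟨by simp only [hR]; linarith, ?_, by simp only [hR]; linarith⟩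
    simp only [hR]
    nlinarith
  -- the bound for the extremal solution
  have hlow : ∀ v ∈ Ioc 0 η, (R c * v) ^ 2 ≤ 2 * y (b - v) := by
    intro v hv
    have hev : ∀ᶠ c' in 𝓝[<] c, (R c' * v) ^ 2 - 2 * ((c - c') * √(2 * K)) ≤ 2 * y (b - v) := by
      have h1 : ∀ᶠ c' in 𝓝[<] c, 0 < c' := by
        apply nhdsWithin_le_nhds
        exact lt_mem_nhds hc0
      have h2 : ∀ᶠ c' in 𝓝[<] c, 4 * k < c' ^ 2 := by
        apply nhdsWithin_le_nhds
        have : ContinuousAt (fun x : ℝ => x ^ 2) c := by fun_prop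
        exact this.eventually (lt_mem_nhds hkc)
      filter_upwards [h1, h2, self_mem_nhdsWithin] with c' hc1 hc2 hc3
      obtain ⟨y', hy'⟩ := hyex f K b c' hf hb0 hb1 hfb hc1.le
      have hpos := hE.below c' hc1.le hc3 y' hy'
      obtain ⟨r1, r2, r3⟩ := hRkey c' hc1 hc2
      have h4 := barrier hb0 hy' hpos hc1 r1 r2 hηb hfη v hv
      have h5 := (hycmp f K b hf hb0 hb1 hfb c' c y' y hc1.le (le_of_lt hc3) hy' hE.isy (b - v)
        ⟨by linarith [hv.2], by linarith [hv.1]⟩).2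
      linarith
    have hlim : Tendsto (fun c' => (R c' * v) ^ 2 - 2 * ((c - c') * √(2 * K))) (𝓝[<] c)
        (𝓝 ((R c * v) ^ 2 - 2 * ((c - c) * √(2 * K)))) := by
      have h1 : Continuous (fun c' => (R c' * v) ^ 2 - 2 * ((c - c') * √(2 * K))) := by fun_prop
      exact (h1.tendsto c).mono_left nhdsWithin_le_nhds
    have h3 := le_of_tendsto hlim hev
    simpa using h3
  obtain ⟨r1, r2, r3⟩ := hRkey c hc0 hkc
  have hφpos := wave_pos hW
  have hφlt := wave_lt hW
  -- the differential inequality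
  have hdφ : ∀ z, φ z ≤ η → deriv φ z ≤ -(R c * φ z) := by
    intro z hz
    rw [hφ z]
    have h1 := hlow (φ z) ⟨hφpos z, hz⟩
    have h2 : R c * φ z ≤ √(2 * y (b - φ z)) := Real.le_sqrt_of_sq_le h1
    linarith
  obtain ⟨z0, hz0⟩ : ∃ z0, ∀ z ≥ z0, φ z ≤ η := by
    have h1 : ∀ᶠ z in atTop, φ z < η := hW.right.eventually (gt_mem_nhds hηpos)
    obtain ⟨z0, hz0⟩ := eventually_atTop.1 h1
    exact ⟨z0, fun z hz => (hz0 z hz).le⟩
  have hd1 : ∀ z, HasDerivAt φ (deriv φ z) z := fun z =>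
    (hW.c2.differentiable (by norm_num) z).hasDerivAt
  set g : ℝ → ℝ := fun z => φ z * Real.exp (R c * z) with hg
  have hg' : ∀ z, HasDerivAt g (deriv φ z * Real.exp (R c * z)
      + φ z * (Real.exp (R c * z) * (R c * 1))) z := by
    intro z
    have h1 : HasDerivAt (fun z : ℝ => Real.exp (R c * z)) (Real.exp (R c * z) * (R c * 1)) z :=
      ((hasDerivAt_id z).const_mul (R c)).exp
    exact (hd1 z).mul h1
  have hanti : AntitoneOn g (Ici z0) := by
    apply antitoneOn_of_deriv_nonpos (convex_Ici z0)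
    · exact fun z _ => (hg' z).continuousAt.continuousWithinAt
    · exact fun z _ => (hg' z).differentiableAt.differentiableWithinAt
    · intro z hz
      rw [interior_Ici] at hz
      rw [(hg' z).deriv]
      have h1 := hdφ z (hz0 z hz.le)
      have h2 := Real.exp_pos (R c * z)
      have h3 := mul_le_mul_of_nonneg_right h1 h2.le
      nlinarith
  refine ⟨R c, Real.exp (R c * z0), r3, fun z => ?_⟩
  rw [← Real.exp_add]
  have e : R c * z0 + -R c * z = R c * (z0 - z) := by ring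
  rw [e]
  rcases le_total z0 z with hz | hz
  · have h1 := hanti self_mem_Ici hz hz
    have h2 : φ z * Real.exp (R c * z) ≤ Real.exp (R c * z0) := by
      refine h1.trans ?_
      have h3 : φ z0 ≤ 1 := ((hφlt z0).trans_le hb1).le
      have h4 := Real.exp_pos (R c * z0)
      show φ z0 * Real.exp (R c * z0) ≤ Real.exp (R c * z0)
      nlinarith
    have h5 : φ z = φ z * Real.exp (R c * z) * Real.exp (-(R c * z)) := by
      rw [mul_assoc, ← Real.exp_add]
      simp
    rw [h5]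
    calc φ z * Real.exp (R c * z) * Real.exp (-(R c * z))
        ≤ Real.exp (R c * z0) * Real.exp (-(R c * z)) :=
          mul_le_mul_of_nonneg_right h2 (Real.exp_pos _).le
      _ = Real.exp (R c * (z0 - z)) := by
          rw [← Real.exp_add]
          congr 1
          ring
  · have h1 : φ z ≤ 1 := ((hφlt z).trans_le hb1).le
    refine h1.trans ?_
    exact Real.one_le_exp (mul_nonneg r1.le (by linarith))

end Pool.Agent.H19.RD
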