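import Pool.Agent.H91.RD.Targets

/-!
# MP_609556_an, modules LIP, CLB, HYPF (helper19)
-/

open Set Filter Topology

namespace Pool.Agent.H19.RD
open Pool.Agent.H91.RD

theorem cont_g {f : ℝ → ℝ} (h : Reaction f) :
    ContinuousOn (derivWithin f (Icc 0 1)) (Icc 0 1) :=
  h.smooth.continuousOn_derivWithin uniqueDiffOn_Icc_zero_one le_rfl

theorem lip : T_LIP := by
  intro f h
  obtain ⟨C, hC⟩ := isCompact_Icc.exists_bound_of_continuousOn (cont_g h)
  have hd : DifferentiableOn ℝ f (Icc 0 1) := h.smooth.differentiableOn one_ne_zero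
  have h1 : ∀ a ∈ Icc (0 : ℝ) 1, ∀ b ∈ Icc (0 : ℝ) 1, |f a - f b| ≤ max C 1 * |a - b| := by
    intro a ha b hb
    have := (convex_Icc (0 : ℝ) 1).norm_image_sub_le_of_norm_derivWithin_le hd
      (C := max C 1) (fun x hx => (hC x hx).trans (le_max_left _ _)) hb ha
    simpa [Real.norm_eq_abs] using this
  have hp : ∀ a : ℝ, f a = f (max (min a 1) 0) := by
    intro a
    by_cases ha : a ∈ Icc (0 : ℝ) 1
    · rw [min_eq_left ha.2, max_eq_left ha.1]
    · rw [h.out a ha]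
      rw [mem_Icc, not_and_or, not_le, not_le] at ha
      rcases ha with ha | ha
      · rw [min_eq_left (by linarith), max_eq_right ha.le, h.zero]
      · rw [min_eq_right ha.le, max_eq_left zero_le_one, h.one]
  have hpm : ∀ a : ℝ, max (min a 1) 0 ∈ Icc (0 : ℝ) 1 := fun a =>
    ⟨le_max_right _ _, max_le (min_le_right _ _) zero_le_one⟩
  have hpl : ∀ a b : ℝ, |max (min a 1) 0 - max (min b 1) 0| ≤ |a - b| := by
    intro a b
    refine (abs_max_sub_max_le_abs _ _ _).trans ?_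
    refine (abs_min_sub_min_le_max a 1 b 1).trans ?_
    simp
  refine ⟨max C 1, lt_of_lt_of_le one_pos (le_max_right _ _), ?_, h.zero, h.one, h.out⟩
  intro a b
  rw [hp a, hp b]
  refine (h1 _ (hpm a) _ (hpm b)).trans ?_
  exact mul_le_mul_of_nonneg_left (hpl a b) (le_trans zero_le_one (le_max_right _ _))

theorem mvi {f : ℝ → ℝ} (h : Reaction f) {a b C : ℝ} (ha : 0 ≤ a) (hb : b ≤ 1)
    (hg : ∀ s ∈ Icc a b, derivWithin f (Icc 0 1) s ≤ C) :
    ∀ p q, a ≤ p → p ≤ q → q ≤ b → f q - f p ≤ C * (q - p) := by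
  have hd : DifferentiableOn ℝ f (Icc 0 1) := h.smooth.differentiableOn one_ne_zero
  have hsub : Icc a b ⊆ Icc (0 : ℝ) 1 := Icc_subset_Icc ha hb
  have hn : ∀ x ∈ interior (Icc a b), Icc (0 : ℝ) 1 ∈ 𝓝 x := by
    intro x hx
    rw [interior_Icc] at hx
    exact Icc_mem_nhds (lt_of_le_of_lt ha hx.1) (lt_of_lt_of_le hx.2 hb)
  intro p q h1 h2 h3
  refine (convex_Icc a b).image_sub_le_mul_sub_of_deriv_le (hd.continuousOn.mono hsub)
    ?_ ?_ p ⟨h1, h2.trans h3⟩ q ⟨h1.trans h2, h3⟩ h2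
  · intro x hx
    exact ((hd x (hsub (interior_subset hx))).differentiableAt (hn x hx)).differentiableWithinAt
  · intro x hx
    rw [← derivWithin_of_mem_nhds (hn x hx)]
    exact hg x (interior_subset hx)

theorem clb : T_CLB := by
  intro f h _ hm
  have hd : DifferentiableOn ℝ f (Icc 0 1) := h.smooth.differentiableOn one_ne_zero
  refine ⟨?_, ?_⟩
  · intro ε hε
    have h0 : HasDerivWithinAt f (derivWithin f (Icc 0 1) 0) (Icc 0 1) 0 :=
      (hd 0 ⟨le_rfl, zero_le_one⟩).hasDerivWithinAt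
    have h1 := (hasDerivWithinAt_iff_isLittleO.1 h0).def hε
    rw [eventually_nhdsWithin_iff, Metric.eventually_nhds_iff] at h1
    obtain ⟨δ, hδ, h1⟩ := h1
    refine ⟨min (δ / 2) 1, lt_min (half_pos hδ) one_pos, ?_⟩
    intro s hs
    have hs1 : s ≤ δ / 2 := hs.2.trans (min_le_left _ _)
    have hs2 : s ≤ 1 := hs.2.trans (min_le_right _ _)
    have := h1 (y := s) (by rw [Real.dist_eq, sub_zero, abs_of_nonneg hs.1]; linarith)
      ⟨hs.1, hs2⟩
    rw [h.zero, sub_zero, sub_zero, Real.norm_eq_abs, Real.norm_eq_abs, abs_of_nonneg hs.1,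
      smul_eq_mul] at this
    have := (abs_le.1 this).1
    nlinarith
  · intro p q h1 h2 h3
    exact mvi h le_rfl le_rfl hm p q h1 h2 h3

theorem near_pt {g : ℝ → ℝ} (hg : ContinuousOn g (Icc 0 1)) {x C : ℝ} (hx : x ∈ Icc (0 : ℝ) 1)
    (hC : g x < C) : ∃ δ > 0, ∀ s ∈ Icc (0 : ℝ) 1, |s - x| < δ → g s ≤ C := by
  have h1 : ∀ᶠ s in 𝓝[Icc 0 1] x, g s < C := (hg x hx).eventually_lt_const hC
  rw [eventually_nhdsWithin_iff, Metric.eventually_nhds_iff] at h1
  obtain ⟨δ, hδ, h1⟩ := h1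
  exact ⟨δ, hδ, fun s hs h => (h1 (by rwa [Real.dist_eq]) hs).le⟩

end Pool.Agent.H19.RD
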