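import Pool.Agent.H94.RD.LP4

/-! # TLP4: the triples of `Two4` of large height -/

set_option autoImplicit false

open Pool.Agent.H38.RB Pool.Agent.H38.PS Pool.Agent.H82.RD Pool.Agent.H13.PS Pool.Agent.H94.RD

namespace Pool.Agent.H19.RD

theorem pf_TLP4 (hTLS : T_TLS) (hQR : T_QR) (hCOME : T_COME) (hPOW4 : T_POW4) : T_TLP4 := by
  classical
  intro ε δ c₀ hε hδ hc₀
  set γ : ℝ := ε / 4 with hγdef
  have hγ : 0 < γ := by positivity
  obtain ⟨X₀, hX₀, hfam⟩ := hTLS γ δ c₀ hγ hδ hc₀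
  obtain ⟨C0, hC0, hQ0⟩ := hQR 0 one_pos
  obtain ⟨C1, hC1, hQ1⟩ := hQR (1 - δ) (by linarith)
  obtain ⟨Cc, hCc, hcom⟩ := hCOME C1 γ hC1 hγ
  obtain ⟨Cp, hCp, hpow⟩ := hPOW4 C1 γ hC1 hγ
  set N₀ : ℕ := (⋃ t ∈ Pool.Agent.H38.RB.sq X₀, Sol 0 t.primeFactors).ncard with hN₀
  set C : ℝ := N₀ + C1 ^ 2 * Cc * Cp + 1 with hC
  have hC0' : 0 ≤ C1 ^ 2 * Cc * Cp := by positivity
  refine ⟨C, by positivity, ?_⟩
  intro s X Y hX hY
  have hX0 : 0 < X := by linarith
  have hXε : 1 ≤ X ^ ε := Real.one_le_rpow (by linarith) hε.le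
  have hprime : ∀ t : ℕ, ∀ p ∈ t.primeFactors, p.Prime :=
    fun t p hp => Nat.prime_of_mem_primeFactors hp
  have hYε : 1 ≤ Y * X ^ ε := one_le_mul_of_one_le_of_one_le hY hXε
  by_cases hXX : X < X₀
  · -- small `X`
    obtain ⟨hU, -⟩ := union_card (Pool.Agent.H38.RB.sq X₀) (fun t => Sol 0 t.primeFactors)
      (fun t => C0 ^ (t.primeFactors.card + 1)) fun t _ => hQ0 _ (hprime t)
    have hsub : {x | x ∈ Two4 s X Y δ ∧ X ^ c₀ ≤ Real.log (ht x)} ⊆
        ⋃ t ∈ Pool.Agent.H38.RB.sq X₀, Sol 0 t.primeFactors := by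
      rintro x ⟨⟨hx, -, hxX, -⟩, -⟩
      rw [Set.mem_iUnion₂]
      refine ⟨pd (pr x).primeFactors, mem_sq (hprime _) (hxX.trans hXX.le), ?_⟩
      rw [pf_pd (hprime _)]
      exact mem_sol hx
    refine ⟨hU.subset hsub, ?_⟩
    have h1 : (({x | x ∈ Two4 s X Y δ ∧ X ^ c₀ ≤ Real.log (ht x)}.ncard : ℕ) : ℝ) ≤ N₀ := by
      exact_mod_cast Set.ncard_le_ncard hsub hU
    have h2 : (N₀ : ℝ) ≤ C := by
      rw [hC]
      linarith
    have h3 : C ≤ C * (Y * X ^ ε) :=
      le_mul_of_one_le_right ((Nat.cast_nonneg _).trans h2) hYε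
    calc _ ≤ C * (Y * X ^ ε) := h1.trans (h2.trans h3)
      _ = _ := by ring
  · -- large `X`
    rw [not_lt] at hXX
    set Y' : ℝ := min Y X with hY'
    have hY'1 : 1 ≤ Y' := le_min hY (by linarith)
    set SS : ℕ → Finset ℕ := fun t => s.primeFactors ∪ t.primeFactors with hSS
    have hSSp : ∀ t, ∀ q ∈ SS t, q.Prime := by
      intro t q hq
      rcases Finset.mem_union.1 hq with h | h
      · exact hprime s q h
      · exact hprime t q h
    set D : Finset ℕ := (Pool.Agent.H38.RB.sq Y').filter (fun t : ℕ => (pd (SS t) : ℝ) ≤ X) with hD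
    have hXγ1 : 1 ≤ X ^ γ := Real.one_le_rpow (by linarith) hγ.le
    have hXγ0 : 0 < X ^ γ := Real.rpow_pos_of_pos hX0 _
    have hcard : ∀ t ∈ D, C1 ^ ((SS t).card + 2) ≤
        Cp * X ^ γ * C1 ^ 2 * C1 ^ t.primeFactors.card := by
      intro t ht
      rw [hD, Finset.mem_filter] at ht
      have h1 : (SS t).card ≤ s.primeFactors.card + t.primeFactors.card :=
        Finset.card_union_le _ _
      have h2 : pd s.primeFactors ≤ pd (SS t) := by
        unfold pd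
        exact Finset.prod_le_prod_of_subset_of_one_le' Finset.subset_union_left
          fun q hq _ => (hSSp t q hq).one_lt.le
      have h3 : ((pd s.primeFactors : ℕ) : ℝ) ≤ X :=
        (show ((pd s.primeFactors : ℕ) : ℝ) ≤ pd (SS t) by exact_mod_cast h2).trans ht.2
      have h4 := hpow (pd s.primeFactors) (pd_pos (hprime s))
      rw [pf_pd (hprime s)] at h4
      have h5 : ((pd s.primeFactors : ℕ) : ℝ) ^ γ ≤ X ^ γ :=
        Real.rpow_le_rpow (Nat.cast_nonneg _) h3 hγ.le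
      have h6 : C1 ^ s.primeFactors.card ≤ Cp * X ^ γ :=
        h4.trans (mul_le_mul_of_nonneg_left h5 (by linarith))
      calc C1 ^ ((SS t).card + 2) ≤ C1 ^ (s.primeFactors.card + t.primeFactors.card + 2) :=
            pow_le_pow_right₀ hC1 (by omega)
        _ = C1 ^ s.primeFactors.card * (C1 ^ 2 * C1 ^ t.primeFactors.card) := by ring
        _ ≤ (Cp * X ^ γ) * (C1 ^ 2 * C1 ^ t.primeFactors.card) :=
            mul_le_mul_of_nonneg_right h6 (by positivity)
        _ = _ := by ring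
    obtain ⟨hU, hUc⟩ := union_card D
      (fun t => ⋃ p ∈ famU X δ c₀ (SS t), Sol (1 - δ) (insert p (SS t)))
      (fun t => X ^ γ * C1 ^ ((SS t).card + 2)) (by
        intro t ht
        rw [hD, Finset.mem_filter] at ht
        exact set_bound hQ1 hC1 (hSSp t) (fun p hp => ⟨hp.1, hp.2.1⟩)
          (hfam X (SS t) hXX (hSSp t) ht.2))
    have hsub : {x | x ∈ Two4 s X Y δ ∧ X ^ c₀ ≤ Real.log (ht x)} ⊆
        ⋃ t ∈ D, ⋃ p ∈ famU X δ c₀ (SS t), Sol (1 - δ) (insert p (SS t)) := by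
      rintro x ⟨hxT, hxh⟩
      have hx : Adm x := hxT.1
      have hxX := hxT.2.2.1
      obtain ⟨a, b, c, p, S, hab, hac, hbc, hpp, hpS, hSp, hsS, hDY, hsX, hpX, hpb, hcS, hbS,
        haS, hsol⟩ := four_data hxT
      have hDp : ∀ q ∈ S \ s.primeFactors, q.Prime := fun q hq => hSp q (Finset.mem_sdiff.1 hq).1
      have hpf : (pd (S \ s.primeFactors)).primeFactors = S \ s.primeFactors := pf_pd hDp
      have hSSe : SS (pd (S \ s.primeFactors)) = S := by
        rw [hSS]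
        simp only
        rw [hpf, Finset.union_sdiff_of_subset hsS]
      have hDX : (pd (S \ s.primeFactors) : ℝ) ≤ X := by
        have h1 : pd (S \ s.primeFactors) ≤ pd S := by
          unfold pd
          exact Finset.prod_le_prod_of_subset_of_one_le' Finset.sdiff_subset
            fun q hq _ => (hSp q hq).one_lt.le
        exact (show ((pd (S \ s.primeFactors) : ℕ) : ℝ) ≤ pd S by exact_mod_cast h1).trans hsX
      rw [Set.mem_iUnion₂]
      refine ⟨pd (S \ s.primeFactors), ?_, ?_⟩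
      · rw [hD, Finset.mem_filter, hSSe]
        exact ⟨mem_sq hDp (le_min hDY hDX), hsX⟩
      · rw [hSSe, Set.mem_iUnion₂]
        exact ⟨p, ⟨hpp, hpS, hpX, x, a, b, c, hx, hxX, hab, hac, hbc, hcS, hbS,
          Nat.dvd_of_mem_primeFactors hpb, haS, hxh⟩, hsol⟩
    refine ⟨hU.subset hsub, ?_⟩
    have h1 : (({x | x ∈ Two4 s X Y δ ∧ X ^ c₀ ≤ Real.log (ht x)}.ncard : ℕ) : ℝ) ≤
        ((⋃ t ∈ D, ⋃ p ∈ famU X δ c₀ (SS t), Sol (1 - δ) (insert p (SS t))).ncard : ℝ) := by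
      exact_mod_cast Set.ncard_le_ncard hsub hU
    have hsum : ∑ t ∈ D, X ^ γ * C1 ^ ((SS t).card + 2) ≤
        X ^ γ * (Cp * X ^ γ * C1 ^ 2) *
          ∑ t ∈ Pool.Agent.H38.RB.sq Y', C1 ^ t.primeFactors.card := by
      have h2 : ∀ t ∈ D, X ^ γ * C1 ^ ((SS t).card + 2) ≤
          X ^ γ * (Cp * X ^ γ * C1 ^ 2) * C1 ^ t.primeFactors.card := by
        intro t ht
        have h3 := mul_le_mul_of_nonneg_left (hcard t ht) hXγ0.le
        calc _ ≤ _ := h3
          _ = _ := by ring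
      calc _ ≤ ∑ t ∈ D, X ^ γ * (Cp * X ^ γ * C1 ^ 2) *
            C1 ^ t.primeFactors.card := Finset.sum_le_sum h2
        _ ≤ ∑ t ∈ Pool.Agent.H38.RB.sq Y', X ^ γ * (Cp * X ^ γ * C1 ^ 2) *
            C1 ^ t.primeFactors.card :=
          Finset.sum_le_sum_of_subset_of_nonneg (Finset.filter_subset _ _)
            fun _ _ _ => by positivity
        _ = _ := by rw [Finset.mul_sum]
    have hYc : Y' ^ (1 + γ) ≤ Y * X ^ γ := by
      rw [Real.rpow_add (by linarith), Real.rpow_one]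
      exact mul_le_mul (min_le_left _ _) (Real.rpow_le_rpow (by linarith) (min_le_right _ _) hγ.le)
        (by positivity) (by linarith)
    have hXγ : X ^ γ * X ^ γ * X ^ γ ≤ X ^ ε := by
      rw [← Real.rpow_add hX0, ← Real.rpow_add hX0]
      exact Real.rpow_le_rpow_of_exponent_le (by linarith) (by rw [hγdef]; linarith)
    have hs2 := hcom Y' (by linarith)
    have h8 : ∑ t ∈ Pool.Agent.H38.RB.sq Y', C1 ^ t.primeFactors.card ≤ Cc * (Y * X ^ γ) :=
      hs2.trans (mul_le_mul_of_nonneg_left hYc hCc.le)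
    have h9 : C1 ^ 2 * Cc * Cp ≤ C := by
      rw [hC]
      have := (Nat.cast_nonneg N₀ : (0 : ℝ) ≤ N₀)
      linarith
    calc _ ≤ _ := h1
      _ ≤ _ := hUc
      _ ≤ _ := hsum
      _ ≤ X ^ γ * (Cp * X ^ γ * C1 ^ 2) * (Cc * (Y * X ^ γ)) :=
          mul_le_mul_of_nonneg_left h8 (by positivity)
      _ = C1 ^ 2 * Cc * Cp * Y * (X ^ γ * X ^ γ * X ^ γ) := by ring
      _ ≤ C1 ^ 2 * Cc * Cp * Y * X ^ ε := mul_le_mul_of_nonneg_left hXγ (by positivity)
      _ ≤ C * Y * X ^ ε := by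
          refine mul_le_mul_of_nonneg_right (mul_le_mul_of_nonneg_right h9 (by linarith))
            (by positivity)

end Pool.Agent.H19.RD
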