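import Pool.Agent.H82.RD.Targets
import Pool.Agent.H82.RD.Basic

/-!
# ZQS: the Hilbert function of a hypersurface section
-/

set_option autoImplicit false

open MvPolynomial

namespace Pool.Agent.H19.RD

open Pool.Agent.H82.RD

theorem pf_ZQS : T_ZQS := by
  intro k _ u A B q f hq hfV hfq S
  set J : Ideal (PR k u) := q ⊔ Ideal.span {f} with hJ
  have hqJ : q ≤ J := le_sup_left
  have hfJ : f ∈ J := Ideal.mem_sup_right (Ideal.mem_span_singleton_self f)
  have hdom : IsDomain (PR k u ⧸ q) := Ideal.Quotient.isDomain q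
  set φ : (PR k u ⧸ q) →ₐ[k] (PR k u ⧸ J) := Ideal.Quotient.factorₐ k hqJ with hφ
  set W : Submodule k (PR k u ⧸ q) := (VV k u (A * (S + 1)) (B * (S + 1))).map
    (Ideal.Quotient.mkₐ k q).toLinearMap with hW
  set W₁ : Submodule k (PR k u ⧸ q) := (VV k u (A * S) (B * S)).map
    (Ideal.Quotient.mkₐ k q).toLinearMap with hW₁
  have hφm : ∀ h : PR k u, φ (Ideal.Quotient.mkₐ k q h) = Ideal.Quotient.mkₐ k J h :=
    fun h => rfl
  have hWfin : Module.Finite k W := inferInstance
  set ψ : W →ₗ[k] (PR k u ⧸ J) := φ.toLinearMap.domRestrict W with hψ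
  have hrange : LinearMap.range ψ = (VV k u (A * (S + 1)) (B * (S + 1))).map
      (Ideal.Quotient.mkₐ k J).toLinearMap := by
    rw [hψ, LinearMap.range_domRestrict, hW, ← Submodule.map_comp]
    rfl
  have hrk := LinearMap.finrank_range_add_finrank_ker ψ
  have hmul : ∀ x : W₁, Ideal.Quotient.mkₐ k q f * (x : PR k u ⧸ q) ∈ W := by
    rintro ⟨x, hx⟩
    obtain ⟨h, hh, rfl⟩ := hx
    refine ⟨f * h, ?_, ?_⟩
    · have h1 := VV_mul hfV hh
      have e1 : A + A * S = A * (S + 1) := by ring
      have e2 : B + B * S = B * (S + 1) := by ring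
      rw [e1, e2] at h1
      exact h1
    · exact map_mul (Ideal.Quotient.mkₐ k q) f h
  have hker : ∀ x : W₁, (⟨Ideal.Quotient.mkₐ k q f * (x : PR k u ⧸ q), hmul x⟩ : W) ∈
      LinearMap.ker ψ := by
    intro x
    rw [LinearMap.mem_ker]
    change φ (Ideal.Quotient.mkₐ k q f * (x : PR k u ⧸ q)) = 0
    rw [map_mul, hφm]
    have h0 : Ideal.Quotient.mkₐ k J f = 0 := Ideal.Quotient.eq_zero_iff_mem.2 hfJ
    rw [h0, zero_mul]
  let g : W₁ →ₗ[k] LinearMap.ker ψ :=
    { toFun := fun x => ⟨⟨Ideal.Quotient.mkₐ k q f * (x : PR k u ⧸ q), hmul x⟩, hker x⟩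
      map_add' := by
        intro x y
        apply Subtype.ext
        apply Subtype.ext
        exact mul_add _ _ _
      map_smul' := by
        intro c x
        apply Subtype.ext
        apply Subtype.ext
        exact mul_smul_comm _ _ _ }
  have hf0 : Ideal.Quotient.mkₐ k q f ≠ 0 := fun h => hfq (Ideal.Quotient.eq_zero_iff_mem.1 h)
  have hg : Function.Injective g := by
    intro x y hxy
    have h1 : Ideal.Quotient.mkₐ k q f * (x : PR k u ⧸ q) =
        Ideal.Quotient.mkₐ k q f * (y : PR k u ⧸ q) :=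
      congrArg (fun z : LinearMap.ker ψ => ((z : W) : PR k u ⧸ q)) hxy
    exact Subtype.ext (mul_left_cancel₀ hf0 h1)
  have h2 := LinearMap.finrank_le_finrank_of_injective hg
  rw [hrange] at hrk
  have h3 : Module.finrank k ((VV k u (A * (S + 1)) (B * (S + 1))).map
      (Ideal.Quotient.mkₐ k J).toLinearMap) + Module.finrank k W₁ ≤ Module.finrank k W := by
    omega
  exact h3

end Pool.Agent.H19.RD
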