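import Pool.Agent.H82.RD.Targets
import Pool.Agent.H82.RD.Basic

/-!
# ZSD: the Hilbert function and several primes
-/

set_option autoImplicit false

open MvPolynomial

namespace Pool.Agent.H19.RD

open Pool.Agent.H82.RD

/-- separating elements -/
theorem sep {k : Type} [Field k] {u : ℕ} (PP : Finset (Ideal (PR k u)))
    (hp : ∀ p ∈ PP, p.IsPrime) (hinc : ∀ p ∈ PP, ∀ p' ∈ PP, p ≤ p' → p = p')
    (p : Ideal (PR k u)) (hpP : p ∈ PP) :
    ∃ g : PR k u, g ∉ p ∧ ∀ p' ∈ PP, p' ≠ p → g ∈ p' := by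
  classical
  have hprime : p.IsPrime := hp p hpP
  have h1 : ¬ (PP.erase p).inf (fun p' => p') ≤ p := by
    intro h
    obtain ⟨p', hp', hle⟩ := (Ideal.IsPrime.inf_le' hprime).1 h
    exact (Finset.ne_of_mem_erase hp') (hinc p' (Finset.mem_of_mem_erase hp') p hpP hle)
  obtain ⟨g, hg, hgp⟩ := SetLike.not_le_iff_exists.1 h1
  refine ⟨g, hgp, fun p' hp' hne => ?_⟩
  exact (Finset.inf_le (f := fun p' : Ideal (PR k u) => p')
    (Finset.mem_erase.2 ⟨hne, hp'⟩)) hg

theorem pf_ZSD : T_ZSD := by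
  classical
  intro k _ u A B I PP hA hB hPP hinc
  have hsep := fun p : {p // p ∈ PP} =>
    sep PP (fun p hp => (hPP p hp).1) hinc p.1 p.2
  choose g hg1 hg2 using hsep
  have hc := fun p : {p // p ∈ PP} => exists_mem_VV hA hB (g p)
  choose c hc using hc
  set C : ℕ := Finset.univ.sup c with hC
  refine ⟨C, fun S => ?_⟩
  have hgV : ∀ i : {p // p ∈ PP}, g i ∈ VV k u (A * C) (B * C) := fun i =>
    VV_mono (Nat.mul_le_mul_left _ (Finset.le_sup (Finset.mem_univ i)))
      (Nat.mul_le_mul_left _ (Finset.le_sup (Finset.mem_univ i))) (hc i)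
  -- the map to the product
  let Θ : (PR k u ⧸ I) →ₗ[k] ((i : {p // p ∈ PP}) → PR k u ⧸ (i : Ideal (PR k u))) :=
    LinearMap.pi fun i => (Ideal.Quotient.factorₐ k (hPP i.1 i.2).2).toLinearMap
  set W : Submodule k (PR k u ⧸ I) := (VV k u (A * (S + C)) (B * (S + C))).map
    (Ideal.Quotient.mkₐ k I).toLinearMap with hW
  let V : (i : {p // p ∈ PP}) → Submodule k (PR k u ⧸ (i : Ideal (PR k u))) := fun i =>
    (VV k u (A * S) (B * S)).map (Ideal.Quotient.mkₐ k (i : Ideal (PR k u))).toLinearMap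
  have hmem : ∀ x : ((i : {p // p ∈ PP}) → V i),
      (fun i : {p // p ∈ PP} => Ideal.Quotient.mkₐ k (i : Ideal (PR k u)) (g i) *
        ((x i : V i) : PR k u ⧸ (i : Ideal (PR k u)))) ∈ W.map Θ := by
    intro x
    have hx : ∀ i : {p // p ∈ PP}, ∃ h ∈ VV k u (A * S) (B * S),
        Ideal.Quotient.mkₐ k (i : Ideal (PR k u)) h = x i := fun i => by
      obtain ⟨h, hh, he⟩ := (x i).2
      exact ⟨h, hh, he⟩
    choose h hh hhe using hx
    refine ⟨Ideal.Quotient.mkₐ k I (∑ i, g i * h i), ?_, ?_⟩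
    · refine ⟨∑ i, g i * h i, ?_, rfl⟩
      refine Submodule.sum_mem _ fun i _ => ?_
      have h1 := VV_mul (hgV i) (hh i)
      have e1 : A * C + A * S = A * (S + C) := by ring
      have e2 : B * C + B * S = B * (S + C) := by ring
      rw [e1, e2] at h1
      exact h1
    · funext j
      change Ideal.Quotient.mkₐ k (j : Ideal (PR k u)) (∑ i, g i * h i) = _
      rw [map_sum, Finset.sum_eq_single j]
      · rw [map_mul, hhe]
      · intro i _ hij
        rw [map_mul]
        have h0 : Ideal.Quotient.mkₐ k (j : Ideal (PR k u)) (g i) = 0 :=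
          Ideal.Quotient.eq_zero_iff_mem.2 (hg2 i j.1 j.2 fun h => hij (Subtype.ext h.symm))
        rw [h0, zero_mul]
      · intro hj
        exact absurd (Finset.mem_univ j) hj
  let L : ((i : {p // p ∈ PP}) → V i) →ₗ[k] W.map Θ :=
    { toFun := fun x => ⟨_, hmem x⟩
      map_add' := by
        intro x y
        apply Subtype.ext
        funext i
        exact mul_add _ _ _
      map_smul' := by
        intro a x
        apply Subtype.ext
        funext i
        exact mul_smul_comm _ _ _ }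
  have hL : Function.Injective L := by
    intro x y hxy
    funext i
    apply Subtype.ext
    have hdom : IsDomain (PR k u ⧸ (i : Ideal (PR k u))) := by
      have := (hPP i.1 i.2).1
      exact Ideal.Quotient.isDomain _
    have h1 : Ideal.Quotient.mkₐ k (i : Ideal (PR k u)) (g i) * ((x i : V i) :
        PR k u ⧸ (i : Ideal (PR k u))) = Ideal.Quotient.mkₐ k (i : Ideal (PR k u)) (g i) *
        ((y i : V i) : PR k u ⧸ (i : Ideal (PR k u))) :=
      congrFun (congrArg Subtype.val hxy) i
    have h0 : Ideal.Quotient.mkₐ k (i : Ideal (PR k u)) (g i) ≠ 0 := fun h =>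
      hg1 i (Ideal.Quotient.eq_zero_iff_mem.1 h)
    exact mul_left_cancel₀ h0 h1
  have h1 := LinearMap.finrank_le_finrank_of_injective hL
  have hfree : ∀ i : {p // p ∈ PP}, Module.Free k (V i) := fun i =>
    Module.Free.of_divisionRing k _
  have hfin : ∀ i : {p // p ∈ PP}, Module.Finite k (V i) := fun i =>
    Module.Finite.map _ _
  rw [Module.finrank_pi_fintype] at h1
  have h2 : Module.finrank k (W.map Θ) ≤ Module.finrank k W := Submodule.finrank_map_le Θ W
  have h3 : ∑ p ∈ PP, hf A B p S = ∑ i : {p // p ∈ PP}, Module.finrank k (V i) := by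
    rw [← Finset.sum_coe_sort PP]
    rfl
  rw [h3]
  exact h1.trans h2

end Pool.Agent.H19.RD
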