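import Pool.Agent.H82.RD.Targets
import Pool.Agent.H82.RD.Basic

/-!
# ZVB: bases consisting of variables
-/

set_option autoImplicit false

open MvPolynomial

namespace Pool.Agent.H19.RD

open Pool.Agent.H82.RD

theorem pf_ZVB : T_ZVB := by
  classical
  intro k _ u p s₀ hp hs₀
  have hdom : IsDomain (PR k u ⧸ p) := Ideal.Quotient.isDomain p
  set x : Option (Fin u) → PR k u ⧸ p := fun o => Ideal.Quotient.mk p (X o) with hx
  set t : Set (PR k u ⧸ p) := Set.range x with ht
  have hgen : Algebra.adjoin k t = ⊤ := by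
    have h1 : t = (Ideal.Quotient.mkₐ k p) '' (Set.range (X : Option (Fin u) → PR k u)) := by
      rw [ht, ← Set.range_comp]
      rfl
    rw [h1, ← AlgHom.map_adjoin, MvPolynomial.adjoin_range_X, Algebra.map_top,
      AlgHom.range_eq_top]
    exact Ideal.Quotient.mkₐ_surjective k p
  have halg : Algebra.IsAlgebraic (Algebra.adjoin k t) (PR k u ⧸ p) := by
    refine ⟨fun a => ?_⟩
    have ha : a ∈ Algebra.adjoin k t := by
      rw [hgen]
      exact Algebra.mem_top
    exact isAlgebraic_algebraMap (⟨a, ha⟩ : Algebra.adjoin k t)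
  have hinj : ∀ o ∈ s₀, ∀ o' ∈ s₀, x o = x o' → o = o' := by
    intro o ho o' ho' h
    have := hs₀.injective (a₁ := ⟨o, ho⟩) (a₂ := ⟨o', ho'⟩) h
    exact congrArg Subtype.val this
  have hind : AlgebraicIndepOn k id (x '' (s₀ : Set (Option (Fin u)))) := by
    have h1 := hs₀.to_subtype_range
    have h2 : Set.range (fun i : s₀ => Ideal.Quotient.mk p (X (i : Option (Fin u)) : PR k u)) =
        x '' (s₀ : Set (Option (Fin u))) := by
      ext a
      constructor
      · rintro ⟨i, rfl⟩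
        exact ⟨i, i.2, rfl⟩
      · rintro ⟨o, ho, rfl⟩
        exact ⟨⟨o, ho⟩, rfl⟩
    rw [h2] at h1
    exact h1
  have hsub : x '' (s₀ : Set (Option (Fin u))) ⊆ t := by
    rintro _ ⟨o, _, rfl⟩
    exact ⟨o, rfl⟩
  obtain ⟨b, hb1, hb2, hb⟩ := exists_isTranscendenceBasis_between _ t hsub hind
  -- the choice of variables
  have hσ : ∀ a : PR k u ⧸ p, ∃ o : Option (Fin u), a ∈ b → x o = a ∧
      ∀ o' ∈ s₀, x o' = a → o = o' := by
    intro a
    by_cases ha : a ∈ b
    · by_cases h : ∃ o ∈ s₀, x o = a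
      · obtain ⟨o, ho, rfl⟩ := h
        exact ⟨o, fun _ => ⟨rfl, fun o' ho' h => hinj o ho o' ho' h.symm⟩⟩
      · obtain ⟨o, ho⟩ := hb2 ha
        exact ⟨o, fun _ => ⟨ho, fun o' ho' h' => absurd ⟨o', ho', h'⟩ h⟩⟩
    · exact ⟨none, fun h => absurd h ha⟩
  choose σ hσ using hσ
  have hbfin : b.Finite := (Set.finite_range x).subset hb2
  set s : Finset (Option (Fin u)) := hbfin.toFinset.image σ with hs
  have hmem : ∀ o ∈ s, x o ∈ b ∧ σ (x o) = o := by
    intro o ho
    obtain ⟨a, ha, rfl⟩ := Finset.mem_image.1 ho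
    rw [Set.Finite.mem_toFinset] at ha
    rw [(hσ a ha).1]
    exact ⟨ha, rfl⟩
  refine ⟨s, ?_, ?_, ?_⟩
  · intro o ho
    have h1 : x o ∈ b := hb1 ⟨o, ho, rfl⟩
    have h2 : σ (x o) = o := (hσ (x o) h1).2 o ho rfl
    exact Finset.mem_image.2 ⟨x o, (Set.Finite.mem_toFinset _).2 h1, h2⟩
  · have h1 := hb.1.comp (fun i : s => (⟨x i, (hmem i i.2).1⟩ : b)) (by
      intro i j hij
      have h2 : x i = x j := congrArg Subtype.val hij
      apply Subtype.ext
      rw [← (hmem i i.2).2, ← (hmem j j.2).2, h2])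
    exact h1
  · have h1 : s.card = hbfin.toFinset.card := by
      rw [hs]
      refine Finset.card_image_of_injOn ?_
      intro a ha a' ha' h
      rw [Finset.mem_coe, Set.Finite.mem_toFinset] at ha ha'
      rw [← (hσ a ha).1, ← (hσ a' ha').1, h]
    have h2 := hb.cardinalMk_eq_trdeg
    rw [dm, ← h2, h1, ← Set.ncard_eq_toFinset_card b hbfin]
    rfl

end Pool.Agent.H19.RD
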